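import Pool.Agent.Helper2.RO.Aff
import Pool.Agent.Helper2.RO.Rad

/-! Module Push: the fibres of a linear invariant `p ∘ dev` of a compact affine manifold are
connected along the leaves, and `p ∘ dev` is onto. -/

set_option autoImplicit false
set_option linter.unusedSectionVars false

open Set Filter Topology

namespace Pool.Agent.FOL

open Pool.Agent.Helper2.MK Pool.Agent.Helper50.HL Pool.Agent.Helper2.RO

section Ext

/-! ### Extension of a local action of a real vector space -/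

variable {W Q : Type*} [NormedAddCommGroup W] [NormedSpace ℝ W] {f : W → Q → Q} {ε : ℝ}

theorem iterate_small (hε : 0 < ε) (h0 : ∀ x, f 0 x = x)
    (hadd : ∀ u v, ‖u‖ < ε → ‖v‖ < ε → ∀ x, f u (f v x) = f (u + v) x) {u : W} (hu : ‖u‖ < ε)
    {m : ℕ} (hm : 0 < m) : (f ((m : ℝ)⁻¹ • u))^[m] = f u := by
  have hm' : (0 : ℝ) < m := by exact_mod_cast hm
  have hsm : ‖(m : ℝ)⁻¹ • u‖ < ε := by
    rw [norm_smul, norm_inv, Real.norm_of_nonneg hm'.le]
    refine lt_of_le_of_lt ?_ hu
    have h1 : (m : ℝ)⁻¹ ≤ 1 := inv_le_one_of_one_le₀ (by exact_mod_cast hm)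
    have := norm_nonneg u
    nlinarith
  have key : ∀ j : ℕ, j ≤ m → (f ((m : ℝ)⁻¹ • u))^[j] = f ((j : ℝ) • ((m : ℝ)⁻¹ • u)) := by
    intro j
    induction j with
    | zero =>
      intro _
      ext x
      simp [h0]
    | succ j ih =>
      intro hj
      rw [Function.iterate_succ', ih (by omega)]
      ext x
      rw [Function.comp_apply, hadd _ _ hsm]
      · congr 1
        push_cast
        rw [add_smul, one_smul, add_comm]
      · rw [norm_smul, norm_smul, norm_inv, Real.norm_of_nonneg hm'.le,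
          Real.norm_of_nonneg (Nat.cast_nonneg j), ← mul_assoc]
        have h2 : (j : ℝ) * (m : ℝ)⁻¹ ≤ 1 := by
          rw [← div_eq_mul_inv, div_le_one hm']
          exact_mod_cast (by omega : j ≤ m)
        refine lt_of_le_of_lt ?_ hu
        have := norm_nonneg u
        nlinarith
  rw [key m le_rfl, smul_smul, mul_inv_cancel₀ hm'.ne', one_smul]

theorem iterate_indep (hε : 0 < ε) (h0 : ∀ x, f 0 x = x)
    (hadd : ∀ u v, ‖u‖ < ε → ‖v‖ < ε → ∀ x, f u (f v x) = f (u + v) x) {w : W}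
    {n n' : ℕ} (hn : 0 < n) (hn' : 0 < n') (h : ‖(n : ℝ)⁻¹ • w‖ < ε) (h' : ‖(n' : ℝ)⁻¹ • w‖ < ε) :
    (f ((n : ℝ)⁻¹ • w))^[n] = (f ((n' : ℝ)⁻¹ • w))^[n'] := by
  have key : ∀ {n n' : ℕ}, 0 < n → 0 < n' → ‖(n : ℝ)⁻¹ • w‖ < ε →
      (f ((n : ℝ)⁻¹ • w))^[n] = (f (((n' * n : ℕ) : ℝ)⁻¹ • w))^[n' * n] := by
    intro n n' hn hn' h
    have h1 := iterate_small hε h0 hadd h hn'
    rw [← h1, smul_smul, ← Function.iterate_mul]
    congr 3
    push_cast
    rw [mul_inv]
  rw [key hn hn' h, key hn' hn h', mul_comm]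

/-- a local action of a real normed space extends to an action -/
theorem exists_action (hε : 0 < ε) (h0 : ∀ x, f 0 x = x)
    (hadd : ∀ u v, ‖u‖ < ε → ‖v‖ < ε → ∀ x, f u (f v x) = f (u + v) x) :
    ∃ T : W → Q → Q, (∀ x, T 0 x = x) ∧ (∀ u v x, T (u + v) x = T u (T v x)) ∧
      (∀ u, ‖u‖ < ε → T u = f u) ∧
      ∀ w, ∃ n : ℕ, 0 < n ∧ ‖(n : ℝ)⁻¹ • w‖ < ε ∧ T w = (f ((n : ℝ)⁻¹ • w))^[n] := by
  have hex : ∀ w : W, ∃ n : ℕ, 0 < n ∧ ‖(n : ℝ)⁻¹ • w‖ < ε := by
    intro w
    obtain ⟨n, hn⟩ := exists_nat_gt (‖w‖ / ε)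
    have h1 : 0 ≤ ‖w‖ / ε := div_nonneg (norm_nonneg _) hε.le
    have hn0 : (0 : ℝ) < n := h1.trans_lt hn
    refine ⟨n, by exact_mod_cast hn0, ?_⟩
    rw [norm_smul, norm_inv, Real.norm_of_nonneg hn0.le, inv_mul_lt_iff₀ hn0]
    rwa [div_lt_iff₀ hε] at hn
  choose n hn hnε using hex
  set T : W → Q → Q := fun w => (f ((n w : ℝ)⁻¹ • w))^[n w] with hT
  have hTn : ∀ (w : W) (m : ℕ), 0 < m → ‖(m : ℝ)⁻¹ • w‖ < ε → T w = (f ((m : ℝ)⁻¹ • w))^[m] :=
    fun w m hm hmε => iterate_indep hε h0 hadd (hn w) hm (hnε w) hmε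
  have hTf : ∀ u, ‖u‖ < ε → T u = f u := by
    intro u hu
    have h1 := hTn u 1 one_pos (by simpa using hu)
    rw [h1]
    simp
  refine ⟨T, fun x => ?_, fun u v x => ?_, hTf, fun w => ⟨n w, hn w, hnε w, rfl⟩⟩
  · rw [hTf 0 (by simpa using hε), h0]
  · obtain ⟨m, hm⟩ := exists_nat_gt ((‖u‖ + ‖v‖) / ε)
    have h1 : 0 ≤ (‖u‖ + ‖v‖) / ε := by positivity
    have hm0 : (0 : ℝ) < m := h1.trans_lt hm
    have hmn : 0 < m := by exact_mod_cast hm0
    have hb : ∀ w : W, ‖w‖ ≤ ‖u‖ + ‖v‖ → ‖(m : ℝ)⁻¹ • w‖ < ε := by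
      intro w hw
      rw [norm_smul, norm_inv, Real.norm_of_nonneg hm0.le, inv_mul_lt_iff₀ hm0]
      rw [div_lt_iff₀ hε] at hm
      linarith
    have hu := hb u (by linarith [norm_nonneg v])
    have hv := hb v (by linarith [norm_nonneg u])
    rw [hTn (u + v) m hmn (hb _ (norm_add_le u v)), hTn u m hmn hu, hTn v m hmn hv]
    have h2 : f ((m : ℝ)⁻¹ • (u + v)) = f ((m : ℝ)⁻¹ • u) ∘ f ((m : ℝ)⁻¹ • v) := by
      ext x
      rw [Function.comp_apply, hadd _ _ hu hv, smul_add]
    have h3 : Function.Commute (f ((m : ℝ)⁻¹ • u)) (f ((m : ℝ)⁻¹ • v)) := by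
      intro x
      rw [hadd _ _ hu hv, hadd _ _ hv hu, add_comm]
    rw [h2, h3.comp_iterate]
    rfl

end Ext

variable {V W Y : Type*} [NormedAddCommGroup V] [NormedSpace ℝ V] [FiniteDimensional ℝ V]
  [NormedAddCommGroup W] [NormedSpace ℝ W] [TopologicalSpace Y] [T2Space Y]

/-- one step inside a leaf -/
def Step (dev : Y → V) (p : V →L[ℝ] W) (a b : Y) : Prop :=
  ∃ e, p e = 0 ∧ dev a + e ∈ dom dev a ∧ b = sec dev a (dev a + e)

/-- local norms with hops and lifts of the vectors of `W` -/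
structure Hops (dev : Y → V) (p : V →L[ℝ] W) where
  /-- the operator of the local norm -/
  op : Y → (V →L[ℝ] V)
  r0 : ℝ
  hr0 : 0 < r0
  A : ℝ
  hA : 1 ≤ A
  C : ℝ
  hC : 0 < C
  ball : ∀ y v, ‖op y v‖ < r0 → dev y + v ∈ dom dev y
  hop : ∀ y v, ‖op y v‖ ≤ r0 / 2 → ∀ u, ‖op y u‖ ≤ A * ‖op (sec dev y (dev y + v)) u‖
  /-- lifts -/
  sg : Y → W → V
  p_sg : ∀ y w, p (sg y w) = w
  sg_le : ∀ y w, ‖op y (sg y w)‖ ≤ C * ‖w‖

section H

variable {dev : Y → V} {p : V →L[ℝ] W} (hdev : IsLocalHomeomorph dev) (H : Hops dev p)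
include hdev

/-- composition of two moves -/
theorem Hops.comp {a : Y} {v1 v2 : V} (h1 : ‖H.op a v1‖ < H.r0) (h2 : ‖H.op a (v1 + v2)‖ < H.r0) :
    dev (sec dev a (dev a + v1)) + v2 ∈ dom dev (sec dev a (dev a + v1)) ∧
      sec dev (sec dev a (dev a + v1)) (dev (sec dev a (dev a + v1)) + v2) =
        sec dev a (dev a + (v1 + v2)) := by
  have hb : ∀ v, ‖H.op a v‖ < H.r0 → dev a + v ∈ {x | ‖H.op a (x - dev a)‖ < H.r0} := by
    intro v hv
    show ‖H.op a (dev a + v - dev a)‖ < H.r0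
    rwa [add_sub_cancel_left]
  have hsub : {x | ‖H.op a (x - dev a)‖ < H.r0} ⊆ dom dev a := by
    intro x hx
    have := H.ball a (x - dev a) hx
    rwa [add_sub_cancel] at this
  have hself : dev a ∈ {x | ‖H.op a (x - dev a)‖ < H.r0} := by
    show ‖H.op a (dev a - dev a)‖ < H.r0
    rw [sub_self, map_zero, norm_zero]
    exact H.hr0
  have h3 := rebase hdev (isOpen_tball (H.op a) (dev a) H.r0) (convex_tball _ _ _) hself hsub
    (hb v1 h1)
  have h4 : dev (sec dev a (dev a + v1)) = dev a + v1 := dev_sec hdev (hsub (hb v1 h1))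
  rw [h4, add_assoc]
  exact ⟨h3.1 (hb _ h2), h3.2 (hb _ h2)⟩

theorem Hops.dev_move {a : Y} {v : V} (h : ‖H.op a v‖ < H.r0) :
    dev (sec dev a (dev a + v)) = dev a + v := dev_sec hdev (H.ball a v h)

/-- two moves with the same value of `p` end in the same leaf -/
theorem Hops.step {a : Y} {v1 v2 : V} (h1 : ‖H.op a v1‖ < H.r0) (h2 : ‖H.op a v2‖ < H.r0)
    (hp : p v1 = p v2) : Step dev p (sec dev a (dev a + v1)) (sec dev a (dev a + v2)) := by
  have h3 := H.comp hdev (v1 := v1) (v2 := v2 - v1) h1 (by rwa [add_sub_cancel])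
  rw [add_sub_cancel] at h3
  exact ⟨v2 - v1, by rw [map_sub, hp, sub_self], h3.1, h3.2.symm⟩

/-- the push of a point -/
noncomputable def Hops.push (H : Hops dev p) (w : W) (y : Y) : Y :=
  sec dev y (dev y + H.sg y w)

/-- the radius of the pushes -/
noncomputable def Hops.eps (H : Hops dev p) : ℝ := H.r0 / (4 * (H.A * H.C))

omit hdev in
theorem Hops.eps_pos : 0 < H.eps := by
  have h1 := H.hr0
  have h2 := H.hA
  have h3 := H.hC
  unfold Hops.eps
  positivity

omit hdev in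
theorem Hops.A_C_lt {w : W} {c : ℝ} (h : ‖w‖ < c * H.eps) : H.A * (H.C * ‖w‖) < c * (H.r0 / 4) := by
  have h1 := H.hr0
  have h2 := H.hA
  have h3 := H.hC
  have h4 : H.A * H.C * H.eps = H.r0 / 4 := by
    unfold Hops.eps
    field_simp
  calc H.A * (H.C * ‖w‖) = H.A * H.C * ‖w‖ := by ring
    _ < H.A * H.C * (c * H.eps) := by
        apply mul_lt_mul_of_pos_left h
        positivity
    _ = c * (H.A * H.C * H.eps) := by ring
    _ = c * (H.r0 / 4) := by rw [h4]

omit hdev in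
theorem Hops.sg_lt {w : W} {c : ℝ} (h : ‖w‖ < c * H.eps) (y : Y) :
    ‖H.op y (H.sg y w)‖ < c * (H.r0 / 4) := by
  refine lt_of_le_of_lt (H.sg_le y w) (lt_of_le_of_lt ?_ (H.A_C_lt h))
  have h2 := H.hA
  have h3 := H.hC
  have h4 : 0 ≤ H.C * ‖w‖ := by positivity
  nlinarith

/-- pushes respect the leaves -/
theorem Hops.push_step {w : W} (hw : ‖w‖ < 2 * H.eps) {a b : Y} (h : Step dev p a b) :
    Quot.mk (Step dev p) (H.push w a) = Quot.mk (Step dev p) (H.push w b) := by
  obtain ⟨e, hpe, he, rfl⟩ := h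
  have hr0 := H.hr0
  have hst : ∀ t : Icc (0 : ℝ) 1, dev a + (t : ℝ) • e ∈ dom dev a := by
    intro t
    apply starConvex_iff_segment_subset.mp (starConvex_dom (dev := dev) a) he
    rw [segment_eq_image']
    exact ⟨t, t.2, by simp⟩
  set y : Icc (0 : ℝ) 1 → Y := fun t => sec dev a (dev a + (t : ℝ) • e) with hy
  have hdevy : ∀ t, dev (y t) = dev a + (t : ℝ) • e := fun t => dev_sec hdev (hst t)
  have hycont : Continuous y :=
    (isSec_sec hdev a).1.comp_continuous
      (continuous_const.add (continuous_subtype_val.smul continuous_const)) hst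
  have hloc : IsLocallyConstant fun t => Quot.mk (Step dev p) (H.push w (y t)) := by
    rw [IsLocallyConstant.iff_eventually_eq]
    intro t0
    have h1 := (hycont.tendsto t0).eventually (near hdev (y t0))
    have h2 : ∀ᶠ t : Icc (0 : ℝ) 1 in 𝓝 t0, ‖H.op (y t0) (((t : ℝ) - (t0 : ℝ)) • e)‖ < H.r0 / 4 := by
      have hc : Continuous fun t : Icc (0 : ℝ) 1 => ‖H.op (y t0) (((t : ℝ) - (t0 : ℝ)) • e)‖ :=
        ((H.op (y t0)).continuous.comp
          ((continuous_subtype_val.sub continuous_const).smul continuous_const)).norm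
      refine (hc.tendsto t0).eventually_lt_const ?_
      rw [sub_self, zero_smul, map_zero, norm_zero]
      positivity
    filter_upwards [h1, h2] with t ht1 ht2
    obtain ⟨-, ht1, -, -⟩ := ht1
    set v' : V := ((t : ℝ) - (t0 : ℝ)) • e with hv'
    have hdt : dev (y t) = dev (y t0) + v' := by
      rw [hdevy, hdevy, hv']
      module
    have hyt : sec dev (y t0) (dev (y t0) + v') = y t := by rw [← hdt]; exact ht1
    have hop := H.hop (y t0) v' (by linarith)
    rw [hyt] at hop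
    set v : V := H.sg (y t) w with hv
    have h3 : ‖H.op (y t0) v‖ < 2 * (H.r0 / 4) := by
      refine lt_of_le_of_lt (hop v) (lt_of_le_of_lt ?_ (H.A_C_lt hw))
      exact mul_le_mul_of_nonneg_left (H.sg_le _ _) (by linarith [H.hA])
    have h4 : ‖H.op (y t0) (v' + v)‖ < H.r0 := by
      rw [map_add]
      have := norm_add_le (H.op (y t0) v') (H.op (y t0) v)
      linarith
    have h5 := (H.comp hdev (v1 := v') (v2 := v) (by linarith) h4).2
    rw [hyt] at h5
    have h6 : H.push w (y t) = sec dev (y t0) (dev (y t0) + (v' + v)) := h5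
    rw [h6]
    refine Quot.sound (H.step hdev h4 ?_ ?_)
    · have := H.sg_lt hw (y t0)
      linarith
    · rw [map_add, hv, H.p_sg, H.p_sg, hv', map_smul, hpe, smul_zero, zero_add]
  have h7 := hloc.apply_eq_of_preconnectedSpace ⟨0, by simp⟩ ⟨1, by simp⟩
  have h8 : y ⟨0, by simp⟩ = a := by
    show sec dev a (dev a + (0 : ℝ) • e) = a
    rw [zero_smul, add_zero, sec_self hdev]
  have h9 : y ⟨1, by simp⟩ = sec dev a (dev a + e) := by
    show sec dev a (dev a + (1 : ℝ) • e) = _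
    rw [one_smul]
  rw [h8, h9] at h7
  exact h7

open Classical in
/-- the push of a leaf -/
noncomputable def Hops.pushQ (H : Hops dev p) (w : W) (x : Quot (Step dev p)) :
    Quot (Step dev p) :=
  if h : ‖w‖ < 2 * H.eps then Quot.lift (fun y => Quot.mk (Step dev p) (H.push w y))
    (fun _ _ hab => H.push_step hdev h hab) x else x

theorem Hops.pushQ_mk {w : W} (hw : ‖w‖ < 2 * H.eps) (y : Y) :
    H.pushQ hdev w (Quot.mk _ y) = Quot.mk _ (H.push w y) := by
  unfold Hops.pushQ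
  rw [dif_pos hw]

/-- a point moved by a small vector lies in the pushed leaf -/
theorem Hops.pushQ_move {y : Y} {v : V} (hv : ‖H.op y v‖ < H.r0) (hpv : ‖p v‖ < 2 * H.eps) :
    Quot.mk (Step dev p) (sec dev y (dev y + v)) = H.pushQ hdev (p v) (Quot.mk _ y) := by
  rw [H.pushQ_mk hdev hpv]
  refine Quot.sound (H.step hdev hv ?_ ?_)
  · have := H.sg_lt hpv y
    have h1 := H.hr0
    linarith
  · rw [H.p_sg]

theorem Hops.pushQ_zero (x : Quot (Step dev p)) : H.pushQ hdev 0 x = x := by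
  obtain ⟨y, rfl⟩ := Quot.exists_rep x
  have h := H.pushQ_move hdev (y := y) (v := 0) (by rw [map_zero, norm_zero]; exact H.hr0)
    (by rw [map_zero, norm_zero]; linarith [H.eps_pos])
  rw [map_zero, add_zero, sec_self hdev] at h
  exact h.symm

theorem Hops.pushQ_add {u v : W} (hu : ‖u‖ < H.eps) (hv : ‖v‖ < H.eps) (x : Quot (Step dev p)) :
    H.pushQ hdev u (H.pushQ hdev v x) = H.pushQ hdev (u + v) x := by
  obtain ⟨y, rfl⟩ := Quot.exists_rep x
  have he := H.eps_pos
  have hr0 := H.hr0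
  rw [H.pushQ_mk hdev (by linarith), H.pushQ_mk hdev (by linarith)]
  set v1 : V := H.sg y v with hv1
  have h1 : ‖H.op y v1‖ < 1 * (H.r0 / 4) := H.sg_lt (by linarith) y
  have hop := H.hop y v1 (by linarith)
  have hpush : H.push v y = sec dev y (dev y + v1) := rfl
  rw [← hpush] at hop
  set v2 : V := H.sg (H.push v y) u with hv2
  have h2 : ‖H.op y v2‖ < 1 * (H.r0 / 4) := by
    refine lt_of_le_of_lt (hop v2) (lt_of_le_of_lt ?_ (H.A_C_lt (w := u) (c := 1)
      (by linarith)))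
    exact mul_le_mul_of_nonneg_left (H.sg_le _ _) (by linarith [H.hA])
  have h3 : ‖H.op y (v1 + v2)‖ < H.r0 := by
    rw [map_add]
    have := norm_add_le (H.op y v1) (H.op y v2)
    linarith
  have h4 := (H.comp hdev (v1 := v1) (v2 := v2) (by linarith) h3).2
  have h5 : H.push u (H.push v y) = sec dev y (dev y + (v1 + v2)) := h4
  have hp12 : p (v1 + v2) = u + v := by
    rw [map_add, hv1, hv2, H.p_sg, H.p_sg, add_comm]
  rw [h5, H.pushQ_move hdev h3, hp12]
  rw [hp12]
  have := norm_add_le u v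
  linarith

/-- the value of `p ∘ dev` on a leaf -/
noncomputable def pQ (hdev : IsLocalHomeomorph dev) (x : Quot (Step dev p)) : W :=
  Quot.lift (fun y => p (dev y)) (by
    rintro a b ⟨e, hpe, he, rfl⟩
    show p (dev a) = p (dev (sec dev a (dev a + e)))
    rw [dev_sec hdev he, map_add, hpe, add_zero]) x

theorem Hops.pQ_pushQ {w : W} (hw : ‖w‖ < 2 * H.eps) (x : Quot (Step dev p)) :
    pQ hdev (H.pushQ hdev w x) = pQ hdev x + w := by
  obtain ⟨y, rfl⟩ := Quot.exists_rep x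
  rw [H.pushQ_mk hdev hw]
  show p (dev (H.push w y)) = p (dev y) + w
  have h1 := H.sg_lt hw y
  have h2 : dev (H.push w y) = dev y + H.sg y w := H.dev_move hdev (by linarith [H.hr0])
  rw [h2, map_add, H.p_sg]

/-- a neighbour lies in the pushed leaf -/
theorem Hops.near (y : Y) : ∀ᶠ y' in 𝓝 y, ‖p (dev y' - dev y)‖ < H.eps ∧
    Quot.mk (Step dev p) y' = H.pushQ hdev (p (dev y' - dev y)) (Quot.mk _ y) := by
  have he := H.eps_pos
  have h1 : Tendsto (fun y' => H.op y (dev y' - dev y)) (𝓝 y) (𝓝 0) := by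
    have hc : Continuous fun y' => H.op y (dev y' - dev y) :=
      (H.op y).continuous.comp (hdev.continuous.sub continuous_const)
    simpa using hc.tendsto y
  have h2 : Tendsto (fun y' => p (dev y' - dev y)) (𝓝 y) (𝓝 0) := by
    have hc : Continuous fun y' => p (dev y' - dev y) :=
      p.continuous.comp (hdev.continuous.sub continuous_const)
    simpa using hc.tendsto y
  have h1' : ∀ᶠ y' in 𝓝 y, ‖H.op y (dev y' - dev y)‖ < H.r0 := by
    have := h1.norm
    rw [norm_zero] at this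
    exact this.eventually_lt_const H.hr0
  have h2' : ∀ᶠ y' in 𝓝 y, ‖p (dev y' - dev y)‖ < H.eps := by
    have := h2.norm
    rw [norm_zero] at this
    exact this.eventually_lt_const he
  filter_upwards [h1', h2', Pool.Agent.Helper50.HL.near hdev y] with y' a1 a2 a3
  refine ⟨a2, ?_⟩
  have h3 := H.pushQ_move hdev a1 (by linarith)
  rw [add_sub_cancel, a3.2.1] at h3
  exact h3

theorem Hops.main (H : Hops dev p) [ConnectedSpace Y] : (∀ w, ∃ y, p (dev y) = w) ∧
    ∀ y y', p (dev y) = p (dev y') → Relation.EqvGen (Step dev p) y y' := by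
  obtain ⟨T, hT0, hTadd, hTf, hTn⟩ := exists_action (f := H.pushQ hdev) H.eps_pos
    (H.pushQ_zero hdev) (fun u v hu hv x => H.pushQ_add hdev hu hv x)
  have hpQ : ∀ w x, pQ hdev (T w x) = pQ hdev x + w := by
    intro w x
    obtain ⟨n, hn, hnε, h⟩ := hTn w
    have key : ∀ j : ℕ, pQ hdev ((H.pushQ hdev ((n : ℝ)⁻¹ • w))^[j] x) =
        pQ hdev x + (j : ℝ) • ((n : ℝ)⁻¹ • w) := by
      intro j
      induction j with
      | zero => simp
      | succ j ih =>
        rw [Function.iterate_succ', Function.comp_apply,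
          H.pQ_pushQ hdev (by linarith [H.eps_pos]), ih]
        push_cast
        rw [add_smul, one_smul, add_assoc]
    rw [h, key n, smul_smul, mul_inv_cancel₀ (by positivity), one_smul]
  have hTcancel : ∀ w x, T w (T (-w) x) = x := by
    intro w x
    rw [← hTadd, add_neg_cancel, hT0]
  have hloc : IsLocallyConstant fun y => T (-(p (dev y))) (Quot.mk (Step dev p) y) := by
    rw [IsLocallyConstant.iff_eventually_eq]
    intro y
    filter_upwards [H.near hdev y] with y' hy'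
    rw [hy'.2, ← hTf _ hy'.1, ← hTadd]
    congr 1
    rw [map_sub]
    abel
  constructor
  · intro w
    obtain ⟨y⟩ : Nonempty Y := inferInstance
    obtain ⟨y', hy'⟩ := Quot.exists_rep (T (w - p (dev y)) (Quot.mk (Step dev p) y))
    refine ⟨y', ?_⟩
    have h1 := hpQ (w - p (dev y)) (Quot.mk (Step dev p) y)
    rw [← hy'] at h1
    have h2 : p (dev y') = p (dev y) + (w - p (dev y)) := h1
    rw [h2, add_sub_cancel]
  · intro y y' h
    have h1 := hloc.apply_eq_of_preconnectedSpace y y'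
    rw [h] at h1
    have h2 := congrArg (T (p (dev y'))) h1
    rw [hTcancel, hTcancel] at h2
    exact Quot.eqvGen_exact h2

end H

section M

variable {G : Type*} [Group G] [MulAction G Y] (M : AffineDeveloping V G Y) (p : V →L[ℝ] W)
  (hp : Function.Surjective p) (hinv : ∀ g x, p ((M.hol g).linear x) = p x)
include hp hinv

theorem exists_hops : Nonempty (Hops M.dev p) := by
  obtain ⟨Φ⟩ := exists_frame M
  choose g z hz hg using fun y : Y => Φ.cover y
  obtain ⟨σ₀, hσ₀⟩ := (p : V →ₗ[ℝ] W).exists_rightInverse_of_surjective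
    (LinearMap.range_eq_top.mpr hp)
  haveI : FiniteDimensional ℝ W := Module.Finite.of_surjective (p : V →ₗ[ℝ] W) hp
  let σ : W →L[ℝ] V := LinearMap.toContinuousLinearMap σ₀
  have hσ : ∀ c, p (σ c) = c := fun c => by
    have := congrArg (fun T : W →ₗ[ℝ] W => T c) hσ₀
    exact this
  let L : G → (V →L[ℝ] V) := fun g => LinearMap.toContinuousLinearMap
    ((lin M g : V ≃ₗ[ℝ] V) : V →ₗ[ℝ] V)
  have hL : ∀ g v, L g v = lin M g v := fun g v => rfl
  refine ⟨{ op := fun y => L (g y)⁻¹, r0 := Φ.r0, hr0 := Φ.hr0, A := Φ.A, hA := Φ.hA,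
            C := ‖σ‖ + 1, hC := by positivity, ball := ?_, hop := ?_,
            sg := fun y w => lin M (g y) (σ w), p_sg := ?_, sg_le := ?_ }⟩
  · intro y v hv
    have h1 := ellipsoid M Φ (g y) (hz y) (x := M.dev y + v) (by
      rw [← hg y, add_sub_cancel_left]
      exact hv)
    rwa [← hg y] at h1
  · intro y v hv u
    have h1 := hop M Φ (g y) (g (sec M.dev y (M.dev y + v))) (hz y)
      (hz (sec M.dev y (M.dev y + v))) (x := M.dev y + v) (by
        rw [← hg y, add_sub_cancel_left]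
        exact hv) (by rw [← hg y, ← hg (sec M.dev y (M.dev y + v))]) u
    exact h1.2
  · intro y w
    show p ((M.hol (g y)).linear (σ w)) = w
    rw [hinv, hσ]
  · intro y w
    show ‖lin M (g y)⁻¹ (lin M (g y) (σ w))‖ ≤ _
    rw [lin_inv_lin]
    refine (σ.le_opNorm w).trans ?_
    have := norm_nonneg w
    nlinarith

theorem fibre_onto [ConnectedSpace Y] (w : W) : ∃ y, p (M.dev y) = w := by
  obtain ⟨H⟩ := exists_hops M p hp hinv
  exact (H.main M.dev_local).1 w

theorem fibre_chain [ConnectedSpace Y] {y y' : Y} (h : p (M.dev y) = p (M.dev y')) :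
    Relation.EqvGen (fun a b => ∃ e, p e = 0 ∧ M.dev a + e ∈ dom M.dev a ∧
      b = sec M.dev a (M.dev a + e)) y y' := by
  obtain ⟨H⟩ := exists_hops M p hp hinv
  exact (H.main M.dev_local).2 y y' h

end M

end Pool.Agent.FOL
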