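import Pool.Agent.FOL.Inj

/-! Module Stab (step 3, group part): the stabiliser of the direction of an incomplete leaf is
covered by finitely many translates. -/

set_option autoImplicit false
set_option linter.unusedSectionVars false

open Set Filter Topology

namespace Pool.Agent.FOL

open Pool.Agent.Helper2.MK Pool.Agent.Helper50.HL Pool.Agent.Helper2.RO Pool.Agent.Helper2.RG

/-- equality in the inequality of Cauchy and Schwarz, for a unit vector -/
theorem eq_smul_of_abs_inner {E : Type*} [NormedAddCommGroup E] [InnerProductSpace ℝ E] {ν v : E}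
    (hν : ‖ν‖ = 1) (h : |inner ℝ ν v| = ‖v‖) : v = (inner ℝ ν v : ℝ) • ν := by
  have h1 : ‖v - (inner ℝ ν v : ℝ) • ν‖ ^ 2 = 0 := by
    rw [norm_sub_sq_real, inner_smul_right, norm_smul, hν, mul_one, Real.norm_eq_abs, sq_abs,
      real_inner_comm ν v, ← h, sq_abs]
    ring
  have h2 : ‖v - (inner ℝ ν v : ℝ) • ν‖ = 0 := by
    rwa [sq_eq_zero_iff] at h1
  exact sub_eq_zero.1 (norm_eq_zero.1 h2)

variable {V G Y : Type*} [NormedAddCommGroup V] [InnerProductSpace ℝ V] [FiniteDimensional ℝ V]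
    [Group G] [TopologicalSpace Y] [T2Space Y] [MulAction G Y] (D : FData V G Y)

/-- the transpose of the linear holonomy -/
noncomputable def LT (g : G) : D.E →ₗ[ℝ] D.E := LinearMap.adjoint (LE D g)

theorem inner_LT (g : G) (v x : D.E) : inner ℝ (LT D g v) x = inner ℝ v (LE D g x) :=
  LinearMap.adjoint_inner_left _ _ _

theorem LT_mul (g h : G) (v : D.E) : LT D (g * h) v = LT D h (LT D g v) := by
  apply ext_inner_right ℝ
  intro x
  rw [inner_LT, inner_LT, inner_LT, LE_mul]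

theorem LT_eq_smul {g : G} {ν : D.E} {c : ℝ} (h : ∀ x, inner ℝ ν (LE D g x) = c * inner ℝ ν x) :
    LT D g ν = c • ν := by
  apply ext_inner_right ℝ
  intro x
  rw [inner_LT, h, inner_smul_left, conj_trivial]

theorem exists_iso (g : G) : ∃ S ∈ D.P, (∀ x, ‖LE D g x‖ ≤ Real.exp ‖S‖ * ‖x‖) ∧
    ∃ Ψ : D.E →ₗᵢ[ℝ] D.E, ∀ v, LT D g v = Ψ (ex (-S) v) := by
  obtain ⟨S, hS, hn⟩ := exists_norm D g
  have hS' : -S ∈ D.P := D.P.neg_mem hS
  let Ψ : D.E →ₗᵢ[ℝ] D.E := ⟨(LE D g⁻¹).comp ((ex (-S) : D.E →L[ℝ] D.E) : D.E →ₗ[ℝ] D.E),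
    fun x => by
      show ‖LE D g⁻¹ (ex (-S) x)‖ = ‖x‖
      rw [hn, ex_ex_neg]⟩
  have hΨ : ∀ x, Ψ x = LE D g⁻¹ (ex (-S) x) := fun x => rfl
  have hsurj : Function.Surjective Ψ := by
    have h1 : Function.Injective Ψ.toLinearMap := Ψ.injective
    exact LinearMap.injective_iff_surjective.1 h1
  refine ⟨S, hS, ?_, Ψ, ?_⟩
  · intro x
    obtain ⟨u, rfl⟩ := hsurj x
    rw [Ψ.norm_map, hΨ, LE_inv']
    have := norm_ex_le D.cartan hS' u
    rwa [norm_neg] at this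
  · intro v
    apply ext_inner_right ℝ
    intro x
    obtain ⟨u, rfl⟩ := hsurj x
    rw [inner_LT, Ψ.inner_map_map, hΨ, LE_inv', ex_symm D.cartan hS']

theorem norm_LT_le {g : G} {C : ℝ} (hC : ∀ x, ‖LE D g x‖ ≤ C * ‖x‖) (v : D.E) :
    ‖LT D g v‖ ≤ C * ‖v‖ := by
  have h1 : ‖LT D g v‖ ^ 2 ≤ C * ‖v‖ * ‖LT D g v‖ := by
    rw [← real_inner_self_eq_norm_sq, inner_LT]
    calc inner ℝ v (LE D g (LT D g v)) ≤ ‖v‖ * ‖LE D g (LT D g v)‖ := real_inner_le_norm _ _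
      _ ≤ ‖v‖ * (C * ‖LT D g v‖) := mul_le_mul_of_nonneg_left (hC _) (norm_nonneg _)
      _ = C * ‖v‖ * ‖LT D g v‖ := by ring
  rcases (norm_nonneg (LT D g v)).eq_or_lt with h | h
  · rw [← h]
    by_contra hcon
    push Not at hcon
    have h2 := hC v
    nlinarith [norm_nonneg (LE D g v), norm_nonneg v]
  · nlinarith

section Contract

variable (hrk : Rk1 D.P)
include hrk

/-- contraction of the direction near the boundary of an incomplete leaf -/
theorem exists_contract {y : Y} (h : LD D y ≠ univ) {ν : D.E} (hν : Dir D y ν) {δ : ℝ}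
    (hδ : 0 < δ) : ∃ g : G, ‖LT D g ν‖ ≤ δ := by
  obtain ⟨Φ⟩ := exists_frame D.toAffineDeveloping
  have hr := Φ.hr0
  obtain ⟨e1, he1⟩ : ∃ e1, e1 ∉ LD D y := by
    by_contra hcon
    push Not at hcon
    exact h (eq_univ_of_forall hcon)
  have hcont : Continuous fun t : ℝ => t • e1 := continuous_id.smul continuous_const
  have hS : IsCompact {t : ℝ | t ∈ Icc (0 : ℝ) 1 ∧ t • e1 ∉ LD D y} := by
    have h1 : {t : ℝ | t ∈ Icc (0 : ℝ) 1 ∧ t • e1 ∉ LD D y} =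
      Icc (0 : ℝ) 1 ∩ (fun t : ℝ => t • e1) ⁻¹' (LD D y)ᶜ := rfl
    rw [h1]
    exact isCompact_Icc.inter_right ((isOpen_LD D y).isClosed_compl.preimage hcont)
  obtain ⟨b, ⟨hb, hbn⟩, hmin⟩ := hS.exists_isLeast ⟨1, ⟨zero_le_one, le_rfl⟩, by
    rwa [one_smul]⟩
  have hb0 : 0 < b := by
    rcases hb.1.eq_or_lt with h1 | h1
    · exfalso
      apply hbn
      rw [← h1, zero_smul]
      exact zero_mem_LD D y
    · exact h1
  have hlt : ∀ t, 0 ≤ t → t < b → t • e1 ∈ LD D y := by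
    intro t ht htb
    by_contra h1
    exact absurd (hmin ⟨⟨ht, htb.le.trans hb.2⟩, h1⟩) (not_le.2 htb)
  set m : ℝ := |inner ℝ ν e1| + 1 with hm
  have hmpos : 0 < m := by positivity
  set t : ℝ := max 0 (b - δ * Φ.r0 / m) with ht
  have ht0 : 0 ≤ t := le_max_left _ _
  have htb : t < b := by
    rw [ht, max_lt_iff]
    refine ⟨hb0, ?_⟩
    have : 0 < δ * Φ.r0 / m := by positivity
    linarith
  have hbt : b - t ≤ δ * Φ.r0 / m := by
    have := le_max_right 0 (b - δ * Φ.r0 / m)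
    linarith
  have hmem := hlt t ht0 htb
  set s : ℝ := (b - t) * inner ℝ ν e1 with hs
  have hs1 : |s| ≤ δ * Φ.r0 := by
    rw [hs, abs_mul, abs_of_pos (by linarith : 0 < b - t)]
    have h1 : |inner ℝ ν e1| ≤ m := by rw [hm]; linarith
    calc (b - t) * |inner ℝ ν e1| ≤ (δ * Φ.r0 / m) * m := by
          apply mul_le_mul hbt h1 (abs_nonneg _)
          positivity
      _ = δ * Φ.r0 := by field_simp
  obtain ⟨g, z, hz, hgz⟩ := Φ.cover (sec D.dev y (D.dev y + ((t • e1 : D.E) : V)))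
  have hLD := LD_sec D hrk hmem
  have hdir := Dir.move D hrk hmem hν
  rw [hgz] at hLD hdir
  have hnot : (b - t) • e1 ∉ LD D (g • z) := by
    rw [hLD]
    intro h1
    apply hbn
    have h2 : t • e1 + (b - t) • e1 ∈ LD D y := h1
    rwa [← add_smul, add_sub_cancel] at h2
  refine ⟨g, ?_⟩
  by_contra hcon
  push Not at hcon
  set v := LT D g ν with hv
  have hvpos : 0 < ‖v‖ := hδ.trans hcon
  have ha : inner ℝ ν (LE D g v) = ‖v‖ ^ 2 := by
    rw [← inner_LT, ← hv, real_inner_self_eq_norm_sq]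
  set u : D.E := (s / ‖v‖ ^ 2) • LE D g v with hu
  have huν : inner ℝ ν u = s := by
    rw [hu, inner_smul_right, ha]
    field_simp
  have hun : ‖LE D g⁻¹ u‖ < Φ.r0 := by
    rw [hu, map_smul, LE_inv, norm_smul, Real.norm_eq_abs, abs_div, abs_of_pos (pow_pos hvpos 2)]
    have h1 : |s| / ‖v‖ ^ 2 * ‖v‖ = |s| / ‖v‖ := by field_simp
    rw [h1, div_lt_iff₀ hvpos]
    calc |s| ≤ δ * Φ.r0 := hs1
      _ < ‖v‖ * Φ.r0 := mul_lt_mul_of_pos_right hcon hr
      _ = Φ.r0 * ‖v‖ := mul_comm _ _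
  have humem : u ∈ LD D (g • z) := by
    rw [mem_LD]
    refine ellipsoid D.toAffineDeveloping Φ g hz ?_
    rw [add_sub_cancel_left]
    exact hun
  apply hnot
  refine hdir.sat u humem _ ?_
  rw [huν, inner_smul_right]

end Contract

section Stab

variable {W : Type*} [NormedAddCommGroup W] [NormedSpace ℝ W] {p : V →L[ℝ] W}
  (hrk : Rk1 D.P) (hker : ∀ x, p x = 0 ↔ x ∈ D.E)
  (hinv : ∀ g x, p ((D.hol g).linear x) = p x)
  (hchain : ∀ y y' : Y, p (D.dev y) = p (D.dev y') → Relation.EqvGen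
    (fun a b => ∃ e, p e = 0 ∧ D.dev a + e ∈ dom D.dev a ∧ b = sec D.dev a (D.dev a + e)) y y')

include hinv in
/-- the group acts by translations on the values of `p` -/
theorem p_smul (g : G) (y : Y) : p (D.dev (g • y)) = p (D.dev y) + p (D.hol g 0) := by
  have h1 := hol_sub D.toAffineDeveloping g (D.dev y) 0
  rw [D.dev_smul]
  have h2 : D.hol g (D.dev y) = lin D.toAffineDeveloping g (D.dev y) + D.hol g 0 := by
    rw [sub_zero] at h1
    rw [← h1]
    abel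
  rw [h2, map_add]
  congr 1
  exact hinv g _

include hinv in
theorem p_comm (g h : G) (y : Y) : p (D.dev ((h * g * h⁻¹ * g⁻¹) • y)) = p (D.dev y) := by
  have hP := p_smul D hinv
  have h1 : ∀ g : G, p (D.hol g⁻¹ 0) + p (D.hol g 0) = 0 := by
    intro g
    have h2 := hP g (g⁻¹ • y)
    rw [smul_inv_smul, hP g⁻¹ y, add_assoc] at h2
    exact (left_eq_add.1 h2)
  rw [mul_smul, mul_smul, mul_smul, hP, hP, hP, hP]
  have h2 := h1 g
  have h3 := h1 h
  calc p (D.dev y) + p (D.hol g⁻¹ 0) + p (D.hol h⁻¹ 0) + p (D.hol g 0) + p (D.hol h 0)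
      = p (D.dev y) + (p (D.hol g⁻¹ 0) + p (D.hol g 0)) + (p (D.hol h⁻¹ 0) + p (D.hol h 0)) := by
        abel
    _ = p (D.dev y) := by rw [h2, h3, add_zero, add_zero]

include hrk hker hchain

/-- elements preserving the fibres scale all directions -/
theorem LT_fibre {n : G} (hn : ∀ y, p (D.dev (n • y)) = p (D.dev y)) {y : Y}
    (h : LD D y ≠ univ) {ν : D.E} (hν : Dir D y ν) : ∃ c : ℝ, LT D n ν = c • ν := by
  have h1 : Dir D (n • y) ν := Dir.fibre D hrk hker hchain (hn y).symm hν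
  obtain ⟨c, -, hc⟩ := Dir.smul_aux D n h hν h1
  exact ⟨c, LT_eq_smul D hc⟩

include hinv

/-- case (b) -/
theorem par_of_bounded
    (hcu : ∀ ν ν' : D.E, (∀ δ > 0, ∃ S ∈ D.P, ‖ex (-S) ν‖ ≤ δ ∧ ‖ex (-S) ν'‖ ≤ δ) →
      |inner ℝ ν ν'| = ‖ν‖ * ‖ν'‖) {C : ℝ}
    (hC : ∀ n : G, (∀ y, p (D.dev (n • y)) = p (D.dev y)) → ∀ x, ‖LE D n x‖ ≤ C * ‖x‖)
    {y0 : Y} (h0 : LD D y0 ≠ univ) {ν0 : D.E} (hν : Dir D y0 ν0) (h : G) :
    ∃ c : ℝ, ∀ x, inner ℝ ν0 (LE D h x) = c * inner ℝ ν0 x := by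
  obtain ⟨Sh, -, hSh, -⟩ := exists_iso D h
  have hLTh := norm_LT_le D hSh
  have hcs := hcu ν0 (LT D h ν0) ?_
  · rw [hν.norm, one_mul] at hcs
    have h1 := eq_smul_of_abs_inner hν.norm hcs
    refine ⟨inner ℝ ν0 (LT D h ν0), fun x => ?_⟩
    rw [← inner_LT]
    nth_rewrite 1 [h1]
    rw [inner_smul_left, conj_trivial]
  · intro δ hδ
    set m : ℝ := 1 + |C| * Real.exp ‖Sh‖ with hm
    have hmpos : 0 < m := by positivity
    obtain ⟨g, hg⟩ := exists_contract D hrk h0 hν (δ := δ / m) (by positivity)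
    obtain ⟨S, hS, -, Ψ, hΨ⟩ := exists_iso D g
    have hn : ∀ v, ‖ex (-S) v‖ = ‖LT D g v‖ := fun v => by rw [hΨ, Ψ.norm_map]
    refine ⟨S, hS, ?_, ?_⟩
    · rw [hn]
      refine hg.trans (div_le_self hδ.le ?_)
      have : 0 ≤ |C| * Real.exp ‖Sh‖ := by positivity
      linarith
    · rw [hn, ← LT_mul]
      have hcomm := p_comm D hinv g h
      obtain ⟨c, hc⟩ := LT_fibre D hrk hker hchain hcomm h0 hν
      have hc1 : |c| ≤ |C| := by
        have h1 := norm_LT_le D (hC _ hcomm) ν0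
        rw [hc, norm_smul, hν.norm, mul_one, mul_one, Real.norm_eq_abs] at h1
        exact h1.trans (le_abs_self C)
      have h2 : h * g = (h * g * h⁻¹ * g⁻¹) * (g * h) := by group
      rw [h2, LT_mul, hc, LT_mul, map_smul, map_smul, norm_smul, Real.norm_eq_abs]
      have h3 := hLTh (LT D g ν0)
      have h4 : ‖LT D h (LT D g ν0)‖ ≤ Real.exp ‖Sh‖ * (δ / m) :=
        h3.trans (mul_le_mul_of_nonneg_left hg (Real.exp_pos _).le)
      calc |c| * ‖LT D h (LT D g ν0)‖ ≤ |C| * (Real.exp ‖Sh‖ * (δ / m)) :=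
            mul_le_mul hc1 h4 (norm_nonneg _) (abs_nonneg _)
        _ = (|C| * Real.exp ‖Sh‖) * (δ / m) := by ring
        _ ≤ m * (δ / m) := by
            apply mul_le_mul_of_nonneg_right _ (by positivity)
            rw [hm]; linarith
        _ = δ := by field_simp

omit hinv in
/-- case (a): at most two directions -/
theorem two_of_unbounded
    (h3d : ∀ ν : Fin 3 → D.E, (∀ i, ‖ν i‖ = 1) → (∀ i, ∃ z ∈ D.P, ‖z‖ = 1 ∧ z (ν i) = ν i) →
      (∀ R : ℝ, ∃ S ∈ D.P, R ≤ ‖S‖ ∧ ∀ i j, |inner ℝ (ex (-S) (ν i)) (ex (-S) (ν j))| =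
        ‖ex (-S) (ν i)‖ * ‖ex (-S) (ν j)‖ * |inner ℝ (ν i) (ν j)|) →
      ∃ i j, i ≠ j ∧ |inner ℝ (ν i) (ν j)| = 1)
    (hC : ∀ C : ℝ, ∃ n : G, (∀ y, p (D.dev (n • y)) = p (D.dev y)) ∧ ∃ x, C * ‖x‖ < ‖LE D n x‖)
    {y : Fin 3 → Y} (h0 : ∀ i, LD D (y i) ≠ univ) {ν : Fin 3 → D.E} (hν : ∀ i, Dir D (y i) (ν i)) :
    ∃ i j, i ≠ j ∧ |inner ℝ (ν i) (ν j)| = 1 := by
  refine h3d ν (fun i => (hν i).norm) ?_ ?_
  · intro i
    obtain ⟨z, hz, hz1, htop⟩ := (hν i).op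
    refine ⟨z, hz, hz1, ?_⟩
    rw [fix_iff D.cartan hz hz1, htop, real_inner_self_eq_norm_sq, (hν i).norm]
    simp
  · intro R
    obtain ⟨n, hn, x, hx⟩ := hC (Real.exp R)
    obtain ⟨S, hS, hle, Ψ, hΨ⟩ := exists_iso D n
    refine ⟨S, hS, ?_, ?_⟩
    · have h1 := hx.trans_le (hle x)
      have h2 : 0 < ‖x‖ := by
        rcases (norm_nonneg x).eq_or_lt with h | h
        · rw [← h, mul_zero, mul_zero] at h1
          exact absurd h1 (lt_irrefl _)
        · exact h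
      exact (Real.exp_lt_exp.1 (lt_of_mul_lt_mul_right h1 h2.le)).le
    · choose c hc using fun i => LT_fibre D hrk hker hchain hn (h0 i) (hν i)
      have hn : ∀ i, ‖ex (-S) (ν i)‖ = |c i| := by
        intro i
        rw [← Ψ.norm_map, ← hΨ, hc, norm_smul, (hν i).norm, mul_one, Real.norm_eq_abs]
      intro i j
      rw [← Ψ.inner_map_map, ← hΨ, ← hΨ, hc, hc, hn, hn, inner_smul_left, inner_smul_right,
        conj_trivial, abs_mul, abs_mul, mul_assoc]

/-- **Stab.** -/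
theorem stab_of
    (hcu : ∀ ν ν' : D.E, (∀ δ > 0, ∃ S ∈ D.P, ‖ex (-S) ν‖ ≤ δ ∧ ‖ex (-S) ν'‖ ≤ δ) →
      |inner ℝ ν ν'| = ‖ν‖ * ‖ν'‖)
    (h3d : ∀ ν : Fin 3 → D.E, (∀ i, ‖ν i‖ = 1) → (∀ i, ∃ z ∈ D.P, ‖z‖ = 1 ∧ z (ν i) = ν i) →
      (∀ R : ℝ, ∃ S ∈ D.P, R ≤ ‖S‖ ∧ ∀ i j, |inner ℝ (ex (-S) (ν i)) (ex (-S) (ν j))| =
        ‖ex (-S) (ν i)‖ * ‖ex (-S) (ν j)‖ * |inner ℝ (ν i) (ν j)|) →
      ∃ i j, i ≠ j ∧ |inner ℝ (ν i) (ν j)| = 1)
    {y0 : Y} (h0 : LD D y0 ≠ univ) {ν0 : D.E} (hν : Dir D y0 ν0) :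
    ∃ T : Finset G, ∀ g, ∃ t ∈ T, ∃ c : ℝ, ∀ x, inner ℝ ν0 (LE D (t * g) x) = c * inner ℝ ν0 x := by
  classical
  by_cases hb : ∃ C : ℝ, ∀ n : G, (∀ y, p (D.dev (n • y)) = p (D.dev y)) →
      ∀ x, ‖LE D n x‖ ≤ C * ‖x‖
  · obtain ⟨C, hC⟩ := hb
    refine ⟨{1}, fun g => ⟨1, Finset.mem_singleton_self _, ?_⟩⟩
    rw [one_mul]
    exact par_of_bounded D hrk hker hinv hchain hcu hC h0 hν g
  · push Not at hb
    choose νg hνg a ha hag using fun g : G => Dir.smul D hrk g h0 hν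
    -- directions parallel to `νg g1`
    have hpar : ∀ g1 g : G, |inner ℝ (νg g1) (νg g)| = 1 →
        ∃ c : ℝ, ∀ x, inner ℝ ν0 (LE D (g1⁻¹ * g) x) = c * inner ℝ ν0 x := by
      intro g1 g h
      have h1 := eq_smul_of_abs_inner (hνg g1).norm (v := νg g) (by rw [h, (hνg g).norm])
      set k : ℝ := inner ℝ (νg g1) (νg g) with hk
      have hk0 : k ≠ 0 := by
        intro h2
        rw [h2] at h
        norm_num at h
      refine ⟨(a g1)⁻¹ * k⁻¹ * a g, fun x => ?_⟩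
      have h2 := hag g1 (LE D (g1⁻¹ * g) x)
      rw [← LE_mul, mul_inv_cancel_left] at h2
      have h3 := hag g x
      rw [h1, inner_smul_left, conj_trivial, h2] at h3
      have ha1 := ha g1
      field_simp
      linarith
    by_cases h1 : ∃ g1 : G, |inner ℝ (νg 1) (νg g1)| ≠ 1
    · obtain ⟨g1, hg1⟩ := h1
      refine ⟨{1, g1⁻¹}, fun g => ?_⟩
      by_cases h2 : |inner ℝ (νg 1) (νg g)| = 1
      · refine ⟨1, by simp, ?_⟩
        have := hpar 1 g h2
        rwa [inv_one] at this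
      by_cases h3 : |inner ℝ (νg g1) (νg g)| = 1
      · exact ⟨g1⁻¹, by simp, hpar g1 g h3⟩
      exfalso
      obtain ⟨i, j, hij, hone⟩ := two_of_unbounded D hrk hker hchain h3d
        (fun C => by
          obtain ⟨n, hn, x, hx⟩ := hb C
          exact ⟨n, hn, x, hx⟩)
        (y := ![(1 : G) • y0, g1 • y0, g • y0]) (ν := ![νg 1, νg g1, νg g])
        (by
          intro i
          fin_cases i
          · exact LD_smul_ne D 1 h0
          · exact LD_smul_ne D g1 h0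
          · exact LD_smul_ne D g h0)
        (by
          intro i
          fin_cases i
          · exact hνg 1
          · exact hνg g1
          · exact hνg g)
      fin_cases i <;> fin_cases j
      · exact hij rfl
      · exact hg1 hone
      · exact h2 hone
      · exact hg1 (by rw [real_inner_comm]; exact hone)
      · exact hij rfl
      · exact h3 hone
      · exact h2 (by rw [real_inner_comm]; exact hone)
      · exact h3 (by rw [real_inner_comm]; exact hone)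
      · exact hij rfl
    · push Not at h1
      refine ⟨{1}, fun g => ⟨1, Finset.mem_singleton_self _, ?_⟩⟩
      have := hpar 1 g (h1 g)
      rwa [inv_one] at this

end Stab

end Pool.Agent.FOL
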