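import Pool.Agent.Helper12.FOL.Leaf
import Pool.Agent.Helper2.RG.Semi

/-! Module Step1: slabs in the leafwise star domains (assembly of step 1). -/

set_option autoImplicit false
set_option linter.unusedSectionVars false

open Set Filter Topology

namespace Pool.Agent.FOL

open Pool.Agent.Helper2.MK Pool.Agent.Helper50.HL Pool.Agent.Helper2.RO

attribute [local instance] leafTop leafAct

variable {V G Y : Type*} [NormedAddCommGroup V] [InnerProductSpace ℝ V] [FiniteDimensional ℝ V]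
    [Group G] [TopologicalSpace Y] [T2Space Y] [MulAction G Y] (D : FData V G Y)

/-- (L1) -/
theorem leaf_L1 (x : Leaf D) (e : D.E) : e ∈ dom (qE D) x ↔ e - qE D x ∈ LD D (ofLeaf D x) :=
  (leaf_dom D x e).1

/-- (L2) -/
theorem leaf_L2 (x : Leaf D) (e : D.E) (h : e ∈ dom (qE D) x) :
    ofLeaf D (sec (qE D) x e) =
      sec D.dev (ofLeaf D x) (D.dev (ofLeaf D x) + ((e - qE D x : D.E) : V)) :=
  (leaf_dom D x e).2 h

theorem ofLeaf_surjective : Function.Surjective (ofLeaf D) := fun y => ⟨y, rfl⟩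

/-- (S1): incomplete leafwise star domains contain slabs. -/
theorem slab_exists (y : Y) (h : LD D y ≠ univ) :
    ∃ z ∈ D.P, ‖z‖ = 1 ∧ ∃ c > 0, ∀ e : D.E, ‖top z e‖ < c → e ∈ LD D y := by
  haveI := leaf_t2 D
  exact Pool.Agent.Helper2.RG.slab_exists_of D (qE D) (ofLeaf D) (qE_local D) (leaf_L1 D)
    (leaf_L2 D) (ofLeaf_surjective D) y h

/-- (S2): the direction of the slab is unique. -/
theorem slab_unique (y : Y) (h : LD D y ≠ univ) {z z' : D.E →L[ℝ] D.E} {c c' : ℝ} (hz : z ∈ D.P)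
    (hz1 : ‖z‖ = 1) (hz' : z' ∈ D.P) (hz1' : ‖z'‖ = 1) (hc : 0 < c) (hc' : 0 < c')
    (hs : ∀ e : D.E, ‖top z e‖ < c → e ∈ LD D y)
    (hs' : ∀ e : D.E, ‖top z' e‖ < c' → e ∈ LD D y) : z = z' := by
  haveI := leaf_t2 D
  exact Pool.Agent.Helper2.RG.slab_unique_of D (qE D) (ofLeaf D) (qE_local D) (leaf_L1 D)
    (leaf_L2 D) (ofLeaf_surjective D) y h hz hz1 hz' hz1' hc hc' hs hs'

end Pool.Agent.FOL
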