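import Pool.Agent.Helper50.HL.Charts

/-! Module Clopen: star domains and sections of the restriction of a local homeomorphism to a
clopen subset. -/

set_option autoImplicit false
set_option linter.unusedSectionVars false

open Set Filter Topology

namespace Pool.Agent.FOL

open Pool.Agent.Helper50.HL

variable {V Y : Type*} [NormedAddCommGroup V] [NormedSpace ℝ V] [TopologicalSpace Y] {dev : Y → V}

theorem clopen_local (hdev : IsLocalHomeomorph dev) {Z : Set Y} (hZ : IsClopen Z) :
    IsLocalHomeomorph (fun z : Z => dev z) :=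
  hdev.comp hZ.2.isOpenEmbedding_subtypeVal.isLocalHomeomorph

/-- sections over convex sets stay in a clopen set -/
theorem isSec_mem_clopen {Z : Set Y} (hZ : IsClopen Z) {C : Set V} (hC : Convex ℝ C)
    {s : V → Y} (hs : IsSec dev C s) {x x' : V} (hx : x ∈ C) (hxZ : s x ∈ Z) (hx' : x' ∈ C) :
    s x' ∈ Z :=
  (hC.isPreconnected.image s hs.1).subset_isClopen hZ ⟨s x, ⟨x, hx, rfl⟩, hxZ⟩ ⟨x', hx', rfl⟩

/-- sections stay in a clopen set -/
theorem sec_mem_clopen [T2Space Y] (hdev : IsLocalHomeomorph dev) {Z : Set Y} (hZ : IsClopen Z)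
    {y : Y} (hy : y ∈ Z) {x : V} (hx : x ∈ dom dev y) : sec dev y x ∈ Z := by
  obtain ⟨C, hC, hconv, hyC, hxC, s, hs, hsy⟩ := hx
  have h := (chart_convex hdev hC hconv hyC hs hsy).2
  rw [← h hxC]
  exact isSec_mem_clopen hZ hconv hs hyC (by rw [hsy]; exact hy) hxC

theorem clopen_dom [T2Space Y] (hdev : IsLocalHomeomorph dev) {Z : Set Y} (hZ : IsClopen Z)
    (z : Z) : dom (fun z : Z => dev z) z = dom dev (z : Y) := by
  classical
  apply Subset.antisymm
  · rintro x ⟨C, hC, hconv, hyC, hxC, s, hs, hsy⟩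
    refine ⟨C, hC, hconv, hyC, hxC, fun v => (s v : Y),
      ⟨continuous_subtype_val.comp_continuousOn hs.1, fun v hv => hs.2 v hv⟩, ?_⟩
    exact congrArg Subtype.val hsy
  · rintro x ⟨C, hC, hconv, hyC, hxC, s, hs, hsy⟩
    have hmem : ∀ v ∈ C, s v ∈ Z := fun v hv =>
      isSec_mem_clopen hZ hconv hs hyC (by rw [hsy]; exact z.2) hv
    set t : V → Z := fun v => if h : s v ∈ Z then ⟨s v, h⟩ else z with ht
    have htC : ∀ v ∈ C, ((t v : Z) : Y) = s v := by
      intro v hv
      simp only [ht, dif_pos (hmem v hv)]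
    refine ⟨C, hC, hconv, hyC, hxC, t, ⟨?_, ?_⟩, ?_⟩
    · rw [Topology.IsInducing.subtypeVal.continuousOn_iff]
      exact hs.1.congr fun v hv => htC v hv
    · intro v hv
      show dev (t v : Y) = v
      rw [htC v hv]
      exact hs.2 v hv
    · apply Subtype.ext
      rw [htC _ hyC, hsy]

theorem clopen_sec [T2Space Y] (hdev : IsLocalHomeomorph dev) {Z : Set Y} (hZ : IsClopen Z)
    (z : Z) {x : V} (hx : x ∈ dom dev (z : Y)) :
    ((sec (fun z : Z => dev z) z x : Z) : Y) = sec dev (z : Y) x := by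
  have hx' : x ∈ dom (fun z : Z => dev z) z := by rw [clopen_dom hdev hZ]; exact hx
  obtain ⟨C, hC, hconv, hyC, hxC, s, hs, hsy⟩ := hx'
  have h1 := (chart_convex (clopen_local hdev hZ) hC hconv hyC hs hsy).2 hxC
  have h2 := (chart_convex hdev (y := (z : Y)) hC hconv hyC (s := fun v => (s v : Y))
    ⟨continuous_subtype_val.comp_continuousOn hs.1, fun v hv => hs.2 v hv⟩
    (congrArg Subtype.val hsy)).2 hxC
  rw [← h1, ← h2]

/-- the incomplete points form a clopen set -/
theorem isClopen_inc [T2Space Y] (hdev : IsLocalHomeomorph dev) :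
    IsClopen {y : Y | dom dev y ≠ univ} := by
  constructor
  · have h : {y : Y | dom dev y ≠ univ} = {y : Y | dom dev y = univ}ᶜ := rfl
    rw [h, isClosed_compl_iff, isOpen_iff_mem_nhds]
    intro y hy
    have h1 := near_convex hdev isOpen_univ convex_univ (mem_univ (dev y))
      (show univ ⊆ dom dev y by rw [show dom dev y = univ from hy])
    filter_upwards [h1] with y' hy'
    exact univ_subset_iff.1 hy'.1
  · rw [isOpen_iff_mem_nhds]
    intro y hy
    filter_upwards [near hdev y] with y' hy' h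
    apply hy
    have h2 := rebase hdev isOpen_univ convex_univ (mem_univ (dev y'))
      (show univ ⊆ dom dev y' by rw [h]) (mem_univ (dev y))
    rw [hy'.2.2.2] at h2
    exact univ_subset_iff.1 h2.1

end Pool.Agent.FOL
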