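import Pool.Agent.FOL.Defs
import Pool.Agent.Helper12.FOL.Clopen

/-! Module Leaf: the leaf topology and the leafwise developing map. -/

set_option autoImplicit false
set_option linter.unusedSectionVars false

open Set Filter Topology

namespace Pool.Agent.FOL

open Pool.Agent.Helper2.MK Pool.Agent.Helper50.HL Pool.Agent.Helper2.RO

section Seg

variable {V Y : Type*} [NormedAddCommGroup V] [NormedSpace ℝ V] [TopologicalSpace Y] [T2Space Y]
  {dev : Y → V}

/-- A lift of a straight segment starting at `y` lies in the star domain of `y`. -/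
theorem mem_dom_of_lift (hdev : IsLocalHomeomorph dev) {y : Y} {v : V} {γ : ℝ → Y}
    (hγ : ContinuousOn γ (Icc 0 1)) (h0 : γ 0 = y) (hd : ∀ t ∈ Icc (0 : ℝ) 1,
      dev (γ t) = dev y + t • v) :
    dev y + v ∈ dom dev y ∧ sec dev y (dev y + v) = γ 1 := by
  have hcont : Continuous fun t : ℝ => dev y + t • v := by fun_prop
  -- uniqueness of lifts
  have huniq : ∀ t ∈ Icc (0 : ℝ) 1, dev y + t • v ∈ dom dev y →
      sec dev y (dev y + t • v) = γ t := by
    intro t ht htd
    have hsub : ∀ s ∈ Icc (0 : ℝ) t, dev y + s • v ∈ dom dev y := by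
      intro s hs
      have h1 := starConvex_iff_segment_subset.mp (starConvex_dom (dev := dev) y) htd
      apply h1
      rw [segment_eq_image']
      rcases ht.1.eq_or_lt with h2 | h2
      · have hs0 : s = 0 := le_antisymm (by linarith [hs.2]) hs.1
        exact ⟨0, ⟨le_rfl, zero_le_one⟩, by simp [hs0]⟩
      · refine ⟨s / t, ⟨div_nonneg hs.1 h2.le, (div_le_one h2).2 hs.2⟩, ?_⟩
        simp only [add_sub_cancel_left, smul_smul]
        rw [div_mul_cancel₀ _ h2.ne']
    have h2 : EqOn (fun s : ℝ => sec dev y (dev y + s • v)) γ (Icc 0 t) := by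
      refine (T2Space.isSeparatedMap dev).eqOn_of_comp_eqOn hdev.isLocallyInjective
        isPreconnected_Icc ?_ (hγ.mono (Icc_subset_Icc_right ht.2)) ?_
        (left_mem_Icc.2 ht.1) ?_
      · exact (isSec_sec hdev y).1.comp hcont.continuousOn fun s hs => hsub s hs
      · intro s hs
        show dev (sec dev y (dev y + s • v)) = dev (γ s)
        rw [dev_sec hdev (hsub s hs), hd s ⟨hs.1, hs.2.trans ht.2⟩]
      · show sec dev y (dev y + (0 : ℝ) • v) = γ 0
        rw [zero_smul, add_zero, sec_self hdev, h0]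
    exact h2 (right_mem_Icc.2 ht.1)
  have hmain : dev y + v ∈ dom dev y := by
    by_contra hcon
    have hS : IsCompact {t : ℝ | t ∈ Icc (0 : ℝ) 1 ∧ dev y + t • v ∉ dom dev y} := by
      have h1 : {t : ℝ | t ∈ Icc (0 : ℝ) 1 ∧ dev y + t • v ∉ dom dev y} =
        Icc (0 : ℝ) 1 ∩ (fun t : ℝ => dev y + t • v) ⁻¹' (dom dev y)ᶜ := rfl
      rw [h1]
      exact isCompact_Icc.inter_right ((isOpen_dom y).isClosed_compl.preimage hcont)
    obtain ⟨b, ⟨hb, hbn⟩, hmin⟩ := hS.exists_isLeast ⟨1, ⟨zero_le_one, le_rfl⟩, by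
      rwa [one_smul]⟩
    have hb0 : 0 < b := by
      rcases hb.1.eq_or_lt with h | h
      · exfalso
        apply hbn
        rw [← h, zero_smul, add_zero]
        exact mem_dom_self hdev y
      · exact h
    have hlt : ∀ t, 0 ≤ t → t < b → dev y + t • v ∈ dom dev y := by
      intro t ht htb
      by_contra h
      exact absurd (hmin ⟨⟨ht, htb.le.trans hb.2⟩, h⟩) (not_le.2 htb)
    obtain ⟨ε, hε, s, hs, hsy, -⟩ := exists_ball_sec hdev (γ b)
    have hself := Metric.mem_ball_self (x := dev (γ b)) hε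
    have hch := chart_convex hdev Metric.isOpen_ball (convex_ball _ _) hself hs hsy
    have h1 := near_convex hdev Metric.isOpen_ball (convex_ball _ _) hself hch.1
    have h2 : Tendsto γ (𝓝[Icc 0 1] b) (𝓝 (γ b)) := hγ b hb
    have h3 : Tendsto γ (𝓝[Ico 0 b] b) (𝓝 (γ b)) :=
      h2.mono_left (nhdsWithin_mono b fun t ht => ⟨ht.1, ht.2.le.trans hb.2⟩)
    have h4 : ∀ᶠ t in 𝓝[Ico 0 b] b, dev (γ t) ∈ Metric.ball (dev (γ b)) ε :=
      (hdev.continuous.continuousAt.tendsto.comp h3).eventually
        (Metric.isOpen_ball.mem_nhds hself)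
    have hne : (𝓝[Ico 0 b] b).NeBot := by
      rw [← mem_closure_iff_nhdsWithin_neBot, closure_Ico hb0.ne]
      exact right_mem_Icc.2 hb0.le
    obtain ⟨t, ⟨ht1, ht2⟩, ht3⟩ := ((h3.eventually h1).and h4).and self_mem_nhdsWithin |>.exists
    have htI : t ∈ Icc (0 : ℝ) 1 := ⟨ht3.1, ht3.2.le.trans hb.2⟩
    have htd := hlt t ht3.1 ht3.2
    apply hbn
    refine mem_dom_of_ray hdev htd ?_ Metric.isOpen_ball (convex_ball (dev (γ b)) ε) ?_ ?_ ?_
    · rw [segment_eq_image']
      refine ⟨t / b, ⟨div_nonneg ht3.1 hb0.le, (div_le_one hb0).2 ht3.2.le⟩, ?_⟩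
      simp only [add_sub_cancel_left, smul_smul]
      rw [div_mul_cancel₀ _ hb0.ne']
    · rw [← hd t htI]; exact ht2
    · rw [huniq t htI htd]; exact ht1.1
    · rw [← hd b hb]; exact hself
  refine ⟨hmain, ?_⟩
  have := huniq 1 ⟨zero_le_one, le_rfl⟩ (by rwa [one_smul])
  rwa [one_smul] at this

end Seg

variable {V G Y : Type*} [NormedAddCommGroup V] [InnerProductSpace ℝ V] [Group G]
    [TopologicalSpace Y] [MulAction G Y]

/-- `Y` with the leaf topology -/
def Leaf (_ : FData V G Y) : Type _ := Y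

/-- the transverse coordinate -/
def trv (D : FData V G Y) (y : Y) : V ⧸ D.E := D.E.mkQ (D.dev y)

/-- the leaf topology -/
@[reducible] def leafTop (D : FData V G Y) : TopologicalSpace (Leaf D) :=
  (‹TopologicalSpace Y› : TopologicalSpace Y) ⊓ TopologicalSpace.induced (trv D) ⊥

/-- the action of the deck group -/
@[reducible] def leafAct (D : FData V G Y) : MulAction G (Leaf D) := (‹MulAction G Y› : MulAction G Y)

attribute [local instance] leafTop leafAct

/-- the identity as a map to the coarse space -/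
def ofLeaf (D : FData V G Y) (y : Leaf D) : Y := y

/-- the identity as a map from the coarse space -/
def toLeaf (D : FData V G Y) (y : Y) : Leaf D := y

theorem ofLeaf_continuous (D : FData V G Y) : Continuous (ofLeaf D) :=
  continuous_id_of_le inf_le_left

theorem leaf_t2 [T2Space Y] (D : FData V G Y) : T2Space (Leaf D) :=
  T2Space.of_injective_continuous (f := ofLeaf D) (fun _ _ h => h) (ofLeaf_continuous D)

theorem isOpen_trv (D : FData V G Y) (w : V ⧸ D.E) : IsOpen {y : Leaf D | trv D (ofLeaf D y) = w} := by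
  have h : @IsOpen Y (TopologicalSpace.induced (trv D) ⊥) {y | trv D y = w} :=
    ⟨{w}, trivial, rfl⟩
  exact IsOpen.mono h inf_le_right

theorem tendsto_leaf (D : FData V G Y) {α : Type*} {l : Filter α} {f : α → Leaf D} {y : Leaf D}
    (h1 : Tendsto (fun a => ofLeaf D (f a)) l (𝓝 (ofLeaf D y)))
    (h2 : ∀ᶠ a in l, trv D (ofLeaf D (f a)) = trv D (ofLeaf D y)) : Tendsto f l (𝓝 y) := by
  have h3 : 𝓝 y = (𝓝 (ofLeaf D y)) ⊓ 𝓟 {y' | trv D y' = trv D (ofLeaf D y)} := by
    have h4 : 𝓝 y = @nhds Y ((‹TopologicalSpace Y› : TopologicalSpace Y) ⊓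
      TopologicalSpace.induced (trv D) ⊥) y := rfl
    rw [h4, nhds_inf]
    congr 1
    rw [@nhds_induced _ _ ⊥]
    have h5 : @nhds (V ⧸ D.E) ⊥ = pure :=
      @nhds_discrete (V ⧸ D.E) ⊥ (@DiscreteTopology.mk (V ⧸ D.E) ⊥ rfl)
    rw [h5, comap_pure]
    rfl
  have h6 : Tendsto (fun a => ofLeaf D (f a)) l
      ((𝓝 (ofLeaf D y)) ⊓ 𝓟 {y' | trv D y' = trv D (ofLeaf D y)}) :=
    tendsto_inf.2 ⟨h1, tendsto_principal.2 h2⟩
  exact h6.trans (le_of_eq h3.symm)

variable [FiniteDimensional ℝ V]

/-- orthogonal projection to `E` -/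
noncomputable def prE (D : FData V G Y) : V →L[ℝ] D.E := D.E.orthogonalProjectionOnto

theorem prE_coe (D : FData V G Y) (e : D.E) : prE D (e : V) = e :=
  Submodule.orthogonalProjectionOnto_mem_subspace_eq_self e

/-- the leafwise developing map -/
noncomputable def qE (D : FData V G Y) (y : Leaf D) : D.E := prE D (D.dev (ofLeaf D y))

theorem dev_of_trv (D : FData V G Y) {y y' : Y} (h : trv D y' = trv D y) :
    D.dev y' = D.dev y + ((qE D (toLeaf D y') - qE D (toLeaf D y) : D.E) : V) := by
  have h1 : D.dev y' - D.dev y ∈ D.E := by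
    have h2 : D.E.mkQ (D.dev y' - D.dev y) = 0 := by
      rw [map_sub]
      exact sub_eq_zero.2 h
    exact (Submodule.Quotient.mk_eq_zero D.E).1 h2
  have h3 : (qE D (toLeaf D y') - qE D (toLeaf D y) : D.E) = ⟨D.dev y' - D.dev y, h1⟩ := by
    have h4 := prE_coe D ⟨D.dev y' - D.dev y, h1⟩
    simp only [map_sub] at h4
    exact h4
  rw [h3]
  simp

theorem trv_of_dev (D : FData V G Y) {y y' : Y} (e : D.E) (h : D.dev y' = D.dev y + (e : V)) :
    trv D y' = trv D y := by
  unfold trv
  rw [h, map_add]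
  have : D.E.mkQ (e : V) = 0 := (Submodule.Quotient.mk_eq_zero D.E).2 e.2
  rw [this, add_zero]

theorem qE_of_dev (D : FData V G Y) {y y' : Y} (e : D.E) (h : D.dev y' = D.dev y + (e : V)) :
    qE D (toLeaf D y') = qE D (toLeaf D y) + e := by
  show prE D (D.dev y') = prE D (D.dev y) + e
  rw [h, map_add, prE_coe]

theorem qE_continuous (D : FData V G Y) : Continuous (qE D) :=
  (prE D).continuous.comp (D.dev_local.continuous.comp (ofLeaf_continuous D))

theorem qE_local (D : FData V G Y) : IsLocalHomeomorph (qE D) := by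
  intro y0
  obtain ⟨e, hy, he⟩ := D.dev_local (ofLeaf D y0)
  have hsrc : ∀ y : Leaf D, trv D (ofLeaf D y) = trv D (ofLeaf D y0) →
      D.dev (ofLeaf D y0) + ((qE D y - qE D y0 : D.E) : V) = D.dev (ofLeaf D y) := by
    intro y h
    exact (dev_of_trv D h).symm
  have hcont : Continuous fun x : D.E => D.dev (ofLeaf D y0) + ((x - qE D y0 : D.E) : V) :=
    continuous_const.add (continuous_subtype_val.comp (continuous_id.sub continuous_const))
  have hdev : ∀ x : D.E, D.dev (ofLeaf D y0) + ((x - qE D y0 : D.E) : V) ∈ e.target →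
      D.dev (e.symm (D.dev (ofLeaf D y0) + ((x - qE D y0 : D.E) : V))) =
        D.dev (ofLeaf D y0) + ((x - qE D y0 : D.E) : V) := by
    intro x hx
    have := e.right_inv hx
    rw [← he] at this
    exact this
  refine ⟨{ toFun := qE D
            invFun := fun x => toLeaf D (e.symm (D.dev (ofLeaf D y0) + ((x - qE D y0 : D.E) : V)))
            source := {y | ofLeaf D y ∈ e.source ∧ trv D (ofLeaf D y) = trv D (ofLeaf D y0)}
            target := {x | D.dev (ofLeaf D y0) + ((x - qE D y0 : D.E) : V) ∈ e.target}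
            map_source' := ?_
            map_target' := ?_
            left_inv' := ?_
            right_inv' := ?_
            open_source := ?_
            open_target := ?_
            continuousOn_toFun := (qE_continuous D).continuousOn
            continuousOn_invFun := ?_ }, ⟨hy, rfl⟩, rfl⟩
  · rintro y ⟨h1, h2⟩
    show D.dev (ofLeaf D y0) + ((qE D y - qE D y0 : D.E) : V) ∈ e.target
    rw [hsrc y h2, he]
    exact e.map_source h1
  · intro x hx
    exact ⟨e.map_target hx, trv_of_dev D _ (hdev x hx)⟩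
  · rintro y ⟨h1, h2⟩
    show e.symm (D.dev (ofLeaf D y0) + ((qE D y - qE D y0 : D.E) : V)) = ofLeaf D y
    rw [hsrc y h2, he]
    exact e.left_inv h1
  · intro x hx
    have h1 := qE_of_dev D _ (hdev x hx)
    refine h1.trans ?_
    show qE D y0 + (x - qE D y0) = x
    abel
  · intro x hx
    apply ContinuousAt.continuousWithinAt
    refine tendsto_leaf D ?_ ?_
    · have h1 : ContinuousAt e.symm (D.dev (ofLeaf D y0) + ((x - qE D y0 : D.E) : V)) :=
        e.symm.continuousOn.continuousAt (e.open_target.mem_nhds hx)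
      exact ContinuousAt.comp (f := fun x : D.E => D.dev (ofLeaf D y0) +
        ((x - qE D y0 : D.E) : V)) (x := x) h1 hcont.continuousAt
    · filter_upwards [(e.open_target.preimage hcont).mem_nhds hx] with x' hx'
      exact (trv_of_dev D _ (hdev x' hx')).trans (trv_of_dev D _ (hdev x hx)).symm
  · exact (e.open_source.preimage (ofLeaf_continuous D)).inter (isOpen_trv D _)
  · exact e.open_target.preimage hcont

/-- a section of the leafwise developing map is a section of the developing map -/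
theorem dev_sec_leaf [T2Space Y] (D : FData V G Y) {y : Leaf D} {C : Set D.E} (hconv : Convex ℝ C)
    (hy : qE D y ∈ C) {s : D.E → Leaf D} (hs : IsSec (qE D) C s) (h : s (qE D y) = y) {x : D.E}
    (hx : x ∈ C) : D.dev (ofLeaf D (s x)) = D.dev (ofLeaf D y) + ((x - qE D y : D.E) : V) := by
  have h1 : trv D (ofLeaf D (s x)) = trv D (ofLeaf D y) := by
    have hcl : IsClopen {y' : Leaf D | trv D (ofLeaf D y') = trv D (ofLeaf D y)} := by
      refine ⟨?_, isOpen_trv D _⟩
      rw [← isOpen_compl_iff]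
      have h2 : {y' : Leaf D | trv D (ofLeaf D y') = trv D (ofLeaf D y)}ᶜ =
          ⋃ w ∈ {w | w ≠ trv D (ofLeaf D y)}, {y' : Leaf D | trv D (ofLeaf D y') = w} := by
        ext y'
        simp
      rw [h2]
      exact isOpen_biUnion fun w _ => isOpen_trv D w
    exact isSec_mem_clopen hcl hconv hs hy (by rw [h]; rfl) hx
  rw [dev_of_trv D h1]
  have h2 : qE D (toLeaf D (ofLeaf D (s x))) = x := hs.2 x hx
  rw [h2]
  rfl

/-- (L1), (L2) -/
theorem leaf_dom [T2Space Y] (D : FData V G Y) (y : Leaf D) (x : D.E) :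
    (x ∈ dom (qE D) y ↔ D.dev (ofLeaf D y) + ((x - qE D y : D.E) : V) ∈ dom D.dev (ofLeaf D y)) ∧
    (x ∈ dom (qE D) y → ofLeaf D (sec (qE D) y x) =
      sec D.dev (ofLeaf D y) (D.dev (ofLeaf D y) + ((x - qE D y : D.E) : V))) := by
  have ht2 := leaf_t2 D
  have key : x ∈ dom (qE D) y →
      D.dev (ofLeaf D y) + ((x - qE D y : D.E) : V) ∈ dom D.dev (ofLeaf D y) ∧
      sec D.dev (ofLeaf D y) (D.dev (ofLeaf D y) + ((x - qE D y : D.E) : V)) =
        ofLeaf D (sec (qE D) y x) := by
    rintro ⟨C, hC, hconv, hy, hx, s, hs, hsy⟩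
    have h1 := (chart_convex (qE_local D) hC hconv hy hs hsy).2 hx
    have hmem : ∀ t ∈ Icc (0 : ℝ) 1, qE D y + t • (x - qE D y) ∈ C := fun t ht =>
      hconv.add_smul_sub_mem hy hx ht
    have h2 := mem_dom_of_lift D.dev_local (y := ofLeaf D y) (v := ((x - qE D y : D.E) : V))
      (γ := fun t => ofLeaf D (s (qE D y + t • (x - qE D y)))) ?_ ?_ ?_
    · rw [← h1]
      have h3 : qE D y + (1 : ℝ) • (x - qE D y) = x := by rw [one_smul]; abel
      simp only [h3] at h2
      exact h2
    · refine (ofLeaf_continuous D).comp_continuousOn (hs.1.comp ?_ hmem)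
      have : Continuous fun t : ℝ => qE D y + t • (x - qE D y) := by fun_prop
      exact this.continuousOn
    · simp only [zero_smul, add_zero, hsy]
    · intro t ht
      show D.dev (ofLeaf D (s (qE D y + t • (x - qE D y)))) = _
      rw [dev_sec_leaf D hconv hy hs hsy (hmem t ht)]
      rw [add_sub_cancel_left]
      rfl
  refine ⟨⟨fun h => (key h).1, ?_⟩, fun h => (key h).2.symm⟩
  rintro ⟨C, hC, hconv, hy, hx, s, hs, hsy⟩
  have hcont : Continuous fun x : D.E => D.dev (ofLeaf D y) + ((x - qE D y : D.E) : V) :=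
    continuous_const.add (continuous_subtype_val.comp (continuous_id.sub continuous_const))
  refine ⟨(fun x : D.E => D.dev (ofLeaf D y) + ((x - qE D y : D.E) : V)) ⁻¹' C,
    hC.preimage hcont, ?_, ?_, hx,
    fun x => toLeaf D (s (D.dev (ofLeaf D y) + ((x - qE D y : D.E) : V))), ⟨?_, ?_⟩, ?_⟩
  · intro a ha b hb c d hc hd hcd
    show D.dev (ofLeaf D y) + ((c • a + d • b - qE D y : D.E) : V) ∈ C
    have h1 : D.dev (ofLeaf D y) + ((c • a + d • b - qE D y : D.E) : V) =
        c • (D.dev (ofLeaf D y) + ((a - qE D y : D.E) : V)) +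
        d • (D.dev (ofLeaf D y) + ((b - qE D y : D.E) : V)) := by
      have hd' : d = 1 - c := by linarith
      subst hd'
      push_cast
      module
    rw [h1]
    exact hconv ha hb hc hd hcd
  · show D.dev (ofLeaf D y) + ((qE D y - qE D y : D.E) : V) ∈ C
    rw [sub_self]
    simpa using hy
  · intro a ha
    apply ContinuousAt.continuousWithinAt
    refine tendsto_leaf D ?_ ?_
    · have h1 : ContinuousAt s (D.dev (ofLeaf D y) + ((a - qE D y : D.E) : V)) :=
        hs.1.continuousAt (hC.mem_nhds ha)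
      exact ContinuousAt.comp (f := fun x : D.E => D.dev (ofLeaf D y) +
        ((x - qE D y : D.E) : V)) (x := a) h1 hcont.continuousAt
    · filter_upwards [(hC.preimage hcont).mem_nhds ha] with a' ha'
      exact (trv_of_dev D _ (hs.2 _ ha')).trans (trv_of_dev D _ (hs.2 _ ha)).symm
  · intro a ha
    have h1 := qE_of_dev D _ (hs.2 _ ha)
    refine h1.trans ?_
    show qE D y + (a - qE D y) = a
    abel
  · show s (D.dev (ofLeaf D y) + ((qE D y - qE D y : D.E) : V)) = ofLeaf D y
    rw [sub_self]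
    simpa using hsy

/-- the leafwise star domain -/
theorem mem_dom_leaf [T2Space Y] (D : FData V G Y) (y : Leaf D) (e : D.E) :
    qE D y + e ∈ dom (qE D) y ↔ e ∈ LD D (ofLeaf D y) := by
  rw [(leaf_dom D y _).1, add_sub_cancel_left]
  rfl

end Pool.Agent.FOL
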